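import Pool.Agent.NPC.Dec
import Pool.Agent.H601R2.PP

/-!
# Small general lemmas on polynomial time
-/

set_option autoImplicit false

namespace Pool.Agent.W2helper56

open Pool.Agent.NPC

theorem sz_sublist {β : Type} [TEnc β] {l l' : List β} (h : l.Sublist l') : sz l ≤ sz l' := by
  induction h with
  | slnil => exact le_rfl
  | cons a _ ih =>
    rw [sz_list_cons]
    omega
  | cons_cons a _ ih =>
    rw [sz_list_cons, sz_list_cons]
    omega

theorem nodup_iff_zipIdx {β : Type} (l : List β) :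
    (∀ x ∈ l.zipIdx, ∀ y ∈ l.zipIdx, x.1 ≠ y.1 ∨ x.2 = y.2) ↔ l.Nodup := by
  rw [List.nodup_iff_injective_getElem]
  constructor
  · intro h i j hij
    have h1 := h (l[i], i.1) (by
      rw [List.mem_zipIdx_iff_getElem?]; simp) (l[j], j.1) (by
      rw [List.mem_zipIdx_iff_getElem?]; simp)
    simp only at h1 hij
    rcases h1 with h1 | h1
    · exact absurd hij h1
    · exact Fin.ext h1
  · rintro h ⟨x, i⟩ hx ⟨y, j⟩ hy
    rw [List.mem_zipIdx_iff_getElem?] at hx hy
    simp only at hx hy ⊢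
    by_cases hxy : x = y
    · right
      obtain ⟨hi, hi'⟩ := List.getElem?_eq_some_iff.1 hx
      obtain ⟨hj, hj'⟩ := List.getElem?_eq_some_iff.1 hy
      have := @h ⟨i, hi⟩ ⟨j, hj⟩ (by simp only; rw [hi', hj', hxy])
      simpa using this
    · exact Or.inl hxy

theorem pp_nodup {α β : Type} [TEnc α] [TEnc β] {l : α → List β} (hl : NPC.Poly l) :
    PP (fun a => (l a).Nodup) := by
  refine PP.congr (p := fun a => ∀ x ∈ (l a).zipIdx, ∀ y ∈ (l a).zipIdx, x.1 ≠ y.1 ∨ x.2 = y.2)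
    ?_ (fun a => nodup_iff_zipIdx _)
  refine PP.ball (r := fun a (x : β × ℕ) => ∀ y ∈ (l a).zipIdx, x.1 ≠ y.1 ∨ x.2 = y.2)
    (Poly.zipIdx hl) ?_
  refine PP.ball (l := fun z : α × (β × ℕ) => (l z.1).zipIdx)
    (r := fun (z : α × (β × ℕ)) (y : β × ℕ) => z.2.1 ≠ y.1 ∨ z.2.2 = y.2)
    (Poly.zipIdx (hl.comp (Poly.fst Poly.id))) ?_
  exact PP.or (PP.ne (Poly.fst (Poly.snd (Poly.fst Poly.id))) (Poly.fst (Poly.snd Poly.id)))
    (PP.eq (Poly.snd (Poly.snd (Poly.fst Poly.id))) (Poly.snd (Poly.snd Poly.id)))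

/-- Membership in `NP` from a polynomial-time predicate. -/
theorem inNPP_of_pp {α β : Type} [TEnc α] [TEnc β] [TDec α] [TDec β] {P : α → Prop}
    {R : α → β → Prop} (hR : PP (fun x : α × β => R x.1 x.2)) (p : Polynomial ℕ)
    (h : ∀ a, P a ↔ ∃ w : β, sz w ≤ p.eval (sz a) ∧ R a w) : InNPP P := by
  obtain ⟨b, hb, hb'⟩ := hR
  refine inNPP_of hb p fun a => ?_
  rw [h a]
  exact exists_congr fun w => and_congr_right fun _ => (hb' (a, w)).symm

/-- the pairing function is polynomial -/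
theorem poly_natPair {α : Type} [TEnc α] {m n : α → ℕ} (hm : NPC.Poly m) (hn : NPC.Poly n) :
    NPC.Poly (fun a => Nat.pair (m a) (n a)) :=
  Poly.ite (Poly.decide_lt hm hn) (Poly.add (Poly.mul hn hn) hm)
    (Poly.add (Poly.add (Poly.mul hm hm) hm) hn)

end Pool.Agent.W2helper56
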